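import Pool.Agent.helper60.DA.SpecJ

/-!
# Row dj:HAR: the harmonic sum over `f < k ≤ 2 f`, `p = 6 f + 1`
-/

set_option autoImplicit false

namespace Pool.Agent.helper60.DA

open Polynomial Finset Pool.Agent.helper60.DK

/-- sums of binomials over a residue class mod 3 -/
def HAR_T (r m N : ℕ) : ℤ := ∑ i ∈ range N, ((m.choose (3 * i + r) : ℕ) : ℤ)

theorem HAR_T1 (m N : ℕ) : HAR_T 1 (m + 1) N = HAR_T 1 m N + HAR_T 0 m N := by
  unfold HAR_T
  rw [← sum_add_distrib]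
  refine sum_congr rfl fun i _ => ?_
  have h : (m + 1).choose (3 * i + 1) = m.choose (3 * i + 0) + m.choose (3 * i + 1) :=
    Nat.choose_succ_succ' m (3 * i)
  rw [h]
  push_cast
  ring

theorem HAR_T2 (m N : ℕ) : HAR_T 2 (m + 1) N = HAR_T 2 m N + HAR_T 1 m N := by
  unfold HAR_T
  rw [← sum_add_distrib]
  refine sum_congr rfl fun i _ => ?_
  have h : (m + 1).choose (3 * i + 2) = m.choose (3 * i + 1) + m.choose (3 * i + 2) :=
    Nat.choose_succ_succ' m (3 * i + 1)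
  rw [h]
  push_cast
  ring

theorem HAR_T0 (m N : ℕ) (h : m < 3 * N + 2) :
    HAR_T 0 (m + 1) (N + 1) = HAR_T 0 m (N + 1) + HAR_T 2 m (N + 1) := by
  unfold HAR_T
  rw [sum_range_succ' (fun i => (((m + 1).choose (3 * i + 0) : ℕ) : ℤ)),
    sum_range_succ' (fun i => ((m.choose (3 * i + 0) : ℕ) : ℤ)),
    sum_range_succ (fun i => ((m.choose (3 * i + 2) : ℕ) : ℤ))]
  have h1 : m.choose (3 * N + 2) = 0 := Nat.choose_eq_zero_of_lt h
  rw [h1]
  have h2 : ∀ i ∈ range N, (((m + 1).choose (3 * (i + 1) + 0) : ℕ) : ℤ) =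
      ((m.choose (3 * (i + 1) + 0) : ℕ) : ℤ) + ((m.choose (3 * i + 2) : ℕ) : ℤ) := by
    intro i _
    have h3 : (m + 1).choose (3 * (i + 1) + 0) = m.choose (3 * i + 2) + m.choose (3 * (i + 1) + 0) :=
      Nat.choose_succ_succ' m (3 * i + 2)
    rw [h3]
    push_cast
    ring
  rw [sum_congr rfl h2, sum_add_distrib]
  simp
  ring

theorem HAR_Tsix (N q : ℕ) (h : 6 * q ≤ 3 * N + 1) :
    3 * HAR_T 0 (6 * q) (N + 1) = 2 ^ (6 * q) + 2 ∧
    3 * HAR_T 1 (6 * q) (N + 1) = 2 ^ (6 * q) - 1 ∧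
    3 * HAR_T 2 (6 * q) (N + 1) = 2 ^ (6 * q) - 1 := by
  induction q with
  | zero =>
    have h0 : HAR_T 0 0 (N + 1) = 1 := by
      unfold HAR_T
      rw [sum_range_succ', sum_eq_zero]
      · simp
      · intro i _
        rw [Nat.choose_eq_zero_of_lt (by omega)]
        rfl
    have h1 : ∀ r, 0 < r → HAR_T r 0 (N + 1) = 0 := by
      intro r hr
      unfold HAR_T
      rw [sum_eq_zero]
      intro i _
      rw [Nat.choose_eq_zero_of_lt (by omega)]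
      rfl
    rw [mul_zero, h0, h1 1 (by omega), h1 2 (by omega)]
    norm_num
  | succ q ih =>
    obtain ⟨i0, i1, i2⟩ := ih (by omega)
    have e : 6 * (q + 1) = 6 * q + 1 + 1 + 1 + 1 + 1 + 1 := by ring
    have e2 : (2 : ℤ) ^ (6 * q + 1 + 1 + 1 + 1 + 1 + 1) = 64 * 2 ^ (6 * q) := by ring
    rw [e, e2]
    have a1 := HAR_T0 (6 * q) N (by omega)
    have b1 := HAR_T1 (6 * q) (N + 1)
    have c1 := HAR_T2 (6 * q) (N + 1)
    have a2 := HAR_T0 (6 * q + 1) N (by omega)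
    have b2 := HAR_T1 (6 * q + 1) (N + 1)
    have c2 := HAR_T2 (6 * q + 1) (N + 1)
    have a3 := HAR_T0 (6 * q + 1 + 1) N (by omega)
    have b3 := HAR_T1 (6 * q + 1 + 1) (N + 1)
    have c3 := HAR_T2 (6 * q + 1 + 1) (N + 1)
    have a4 := HAR_T0 (6 * q + 1 + 1 + 1) N (by omega)
    have b4 := HAR_T1 (6 * q + 1 + 1 + 1) (N + 1)
    have c4 := HAR_T2 (6 * q + 1 + 1 + 1) (N + 1)
    have a5 := HAR_T0 (6 * q + 1 + 1 + 1 + 1) N (by omega)
    have b5 := HAR_T1 (6 * q + 1 + 1 + 1 + 1) (N + 1)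
    have c5 := HAR_T2 (6 * q + 1 + 1 + 1 + 1) (N + 1)
    have a6 := HAR_T0 (6 * q + 1 + 1 + 1 + 1 + 1) N (by omega)
    have b6 := HAR_T1 (6 * q + 1 + 1 + 1 + 1 + 1) (N + 1)
    have c6 := HAR_T2 (6 * q + 1 + 1 + 1 + 1 + 1) (N + 1)
    refine ⟨?_, ?_, ?_⟩ <;> linarith

theorem HAR_sum (f : ℕ) : 3 * (1 + ∑ i ∈ Finset.Icc 1 (2 * f), (((6 * f + 1).choose (3 * i) : ℕ) : ℤ))
    = 2 ^ (6 * f + 1) + 1 := by
  obtain ⟨i0, i1, i2⟩ := HAR_Tsix (2 * f) f (by omega)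
  have a1 := HAR_T0 (6 * f) (2 * f) (by omega)
  have e : HAR_T 0 (6 * f + 1) (2 * f + 1) =
      1 + ∑ i ∈ Finset.Icc 1 (2 * f), (((6 * f + 1).choose (3 * i) : ℕ) : ℤ) := by
    unfold HAR_T
    have e1 : range (2 * f + 1) = insert 0 (Finset.Icc 1 (2 * f)) := by
      ext x
      simp only [mem_range, mem_insert, mem_Icc]
      omega
    rw [e1, sum_insert (by simp)]
    simp
  rw [← e, a1, mul_add, i0, i2]
  ring

theorem HAR_choose_neg {p : ℕ} [hp : Fact p.Prime] (i : ℕ) (hi : i < p) :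
    (((p - 1).choose i : ℕ) : ZMod p) = (-1) ^ i := by
  induction i with
  | zero => simp
  | succ i ih =>
    have h1 := ih (by omega)
    have h2 : p.choose (i + 1) = (p - 1).choose i + (p - 1).choose (i + 1) := by
      have h3 := Nat.choose_succ_succ' (p - 1) i
      rwa [Nat.sub_add_cancel hp.out.one_le] at h3
    have h4 : ((p.choose (i + 1) : ℕ) : ZMod p) = 0 := by
      rw [ZMod.natCast_eq_zero_iff]
      exact hp.out.dvd_choose_self (by omega) hi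
    rw [h2, Nat.cast_add, h1] at h4
    rw [pow_succ]
    linear_combination h4

theorem HAR_choose_div {p : ℕ} [hp : Fact p.Prime] (j : ℕ) (h0 : 0 < j) (hj : j < p) :
    ((p.choose j / p : ℕ) : ZMod p) = (-1) ^ (j - 1) * (j : ZMod p)⁻¹ := by
  have hp0 : 0 < p := hp.out.pos
  have hd : p ∣ p.choose j := hp.out.dvd_choose_self (by omega) hj
  obtain ⟨c, hc⟩ := hd
  have h1 : p * (p - 1).choose (j - 1) = p.choose j * j := by
    have h3 := Nat.add_one_mul_choose_eq (p - 1) (j - 1)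
    have e1 : p - 1 + 1 = p := Nat.sub_add_cancel hp0
    have e2 : j - 1 + 1 = j := Nat.sub_add_cancel h0
    rwa [e1, e2] at h3
  rw [hc, mul_assoc] at h1
  have h2 := Nat.eq_of_mul_eq_mul_left hp0 h1
  have h3 : (((p - 1).choose (j - 1) : ℕ) : ZMod p) = (c : ZMod p) * (j : ZMod p) := by
    rw [h2]
    push_cast
    ring
  rw [HAR_choose_neg (j - 1) (by omega)] at h3
  have hj0 : (j : ZMod p) ≠ 0 := by
    rw [Ne, ZMod.natCast_eq_zero_iff]
    exact Nat.not_dvd_of_pos_of_lt h0 hj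
  rw [hc, Nat.mul_div_cancel_left c hp0, h3, mul_assoc, mul_inv_cancel₀ hj0, mul_one]

theorem HAR_alt {K : Type*} [Field K] (h2 : (2 : K) ≠ 0) (f : ℕ) :
    ∑ i ∈ Finset.Icc 1 (2 * f), (-1) ^ (i - 1) * (i : K)⁻¹ =
      ∑ k ∈ Finset.Ioc f (2 * f), (k : K)⁻¹ := by
  induction f with
  | zero => simp
  | succ f ih =>
    have e : 2 * (f + 1) = 2 * f + 1 + 1 := by ring
    rw [e, sum_Icc_succ_top (by omega), sum_Icc_succ_top (by omega), ih]
    have e1 : Finset.Ioc f (2 * f + 1 + 1) = insert (f + 1) (Finset.Ioc (f + 1) (2 * f + 1 + 1)) := by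
      ext x
      simp only [mem_insert, mem_Ioc]
      omega
    have e2 : Finset.Ioc f (2 * f + 1 + 1) =
        insert (2 * f + 1 + 1) (insert (2 * f + 1) (Finset.Ioc f (2 * f))) := by
      ext x
      simp only [mem_insert, mem_Ioc]
      omega
    have h3 : ∑ k ∈ Finset.Ioc f (2 * f + 1 + 1), (k : K)⁻¹ =
        ((f + 1 : ℕ) : K)⁻¹ + ∑ k ∈ Finset.Ioc (f + 1) (2 * f + 1 + 1), (k : K)⁻¹ := by
      rw [e1, sum_insert (by simp)]
    have h4 : ∑ k ∈ Finset.Ioc f (2 * f + 1 + 1), (k : K)⁻¹ =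
        ((2 * f + 1 + 1 : ℕ) : K)⁻¹ + (((2 * f + 1 : ℕ) : K)⁻¹ +
          ∑ k ∈ Finset.Ioc f (2 * f), (k : K)⁻¹) := by
      rw [e2, sum_insert (by simp), sum_insert (by simp)]
    have h5 : ((f + 1 : ℕ) : K)⁻¹ = 2 * ((2 * f + 1 + 1 : ℕ) : K)⁻¹ := by
      have : ((2 * f + 1 + 1 : ℕ) : K) = 2 * ((f + 1 : ℕ) : K) := by
        push_cast
        ring
      rw [this, mul_inv, ← mul_assoc, mul_inv_cancel₀ h2, one_mul]
    have h6 : (-1 : K) ^ (2 * f + 1 - 1) = 1 := by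
      rw [Nat.add_sub_cancel, pow_mul]
      norm_num
    have h7 : (-1 : K) ^ (2 * f + 1 + 1 - 1) = -1 := by
      rw [Nat.add_sub_cancel, pow_succ, pow_mul]
      norm_num
    rw [h6, h7]
    rw [h3, h5] at h4
    linear_combination -h4

theorem HAR : HAR_stmt := by
  intro p hp h3 h6
  have := hp
  obtain ⟨f, hf⟩ : ∃ f, p = 6 * f + 1 := ⟨p / 6, by omega⟩
  have hf6 : p / 6 = f := by omega
  have hp0 : 0 < p := hp.out.pos
  have h2p : ¬ (p : ℤ) ∣ 2 := by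
    intro h
    have := Int.le_of_dvd (by norm_num) h
    omega
  have h20 : (2 : ZMod p) ≠ 0 := by
    intro h
    apply h2p
    rw [← int_dvd_iff]
    exact_mod_cast h
  have h30 : (3 : ZMod p) ≠ 0 := by
    intro h
    have h' : ((3 : ℕ) : ZMod p) = 0 := by exact_mod_cast h
    rw [ZMod.natCast_eq_zero_iff] at h'
    have := Nat.le_of_dvd (by norm_num) h'
    omega
  rw [hf6, ← HAR_alt h20 f]
  have hs := HAR_sum f
  rw [← hf] at hs
  have hq := fq_spec (p := p) (a := 2) h2p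
  have hdiv : ∑ i ∈ Finset.Icc 1 (2 * f), ((p.choose (3 * i) : ℕ) : ℤ) =
      (p : ℤ) * ∑ i ∈ Finset.Icc 1 (2 * f), ((p.choose (3 * i) / p : ℕ) : ℤ) := by
    rw [mul_sum]
    refine sum_congr rfl fun i hi => ?_
    have hi' := mem_Icc.mp hi
    have hd : p ∣ p.choose (3 * i) := hp.out.dvd_choose_self (by omega) (by omega)
    rw [← Nat.cast_mul, Nat.mul_div_cancel' hd]
  rw [hdiv] at hs
  have hpow : (2 : ℤ) ^ p = 2 * 2 ^ (p - 1) := by
    rw [← pow_succ', Nat.sub_add_cancel hp0]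
  have hint : 3 * ∑ i ∈ Finset.Icc 1 (2 * f), ((p.choose (3 * i) / p : ℕ) : ℤ) = 2 * fq p 2 := by
    have hpz : (p : ℤ) ≠ 0 := by exact_mod_cast hp.out.ne_zero
    apply mul_left_cancel₀ hpz
    rw [hpow] at hs
    linear_combination hs - 2 * hq
  have hz : (3 : ZMod p) * ∑ i ∈ Finset.Icc 1 (2 * f), ((p.choose (3 * i) / p : ℕ) : ZMod p) =
      2 * Q2 p := by
    have h1 : ((3 * ∑ i ∈ Finset.Icc 1 (2 * f), ((p.choose (3 * i) / p : ℕ) : ℤ) : ℤ) : ZMod p) =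
        ((2 * fq p 2 : ℤ) : ZMod p) := congrArg (fun z : ℤ => (z : ZMod p)) hint
    rw [Int.cast_mul, Int.cast_mul, Int.cast_sum] at h1
    simp only [Int.cast_natCast, Int.cast_ofNat] at h1
    unfold Q2
    exact h1
  rw [← hz, mul_sum]
  refine sum_congr rfl fun i hi => ?_
  have hi' := mem_Icc.mp hi
  rw [HAR_choose_div (3 * i) (by omega) (by omega)]
  have e1 : (-1 : ZMod p) ^ (3 * i - 1) = (-1) ^ (i - 1) := by
    have : 3 * i - 1 = 2 * i + (i - 1) := by omega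
    rw [this, pow_add, pow_mul]
    norm_num
  have e2 : ((3 * i : ℕ) : ZMod p)⁻¹ = 3⁻¹ * (i : ZMod p)⁻¹ := by
    push_cast
    rw [mul_inv]
  rw [e1, e2]
  have e3 : (3 : ZMod p) * 3⁻¹ = 1 := mul_inv_cancel₀ h30
  linear_combination (-(-1 : ZMod p) ^ (i - 1) * (i : ZMod p)⁻¹) * e3

end Pool.Agent.helper60.DA
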