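import Pool.Agent.helper60.DA.SpecW

/-!
# Row dw:MB: an identity for `Jc ((1+X)^h N)`
-/

set_option autoImplicit false

namespace Pool.Agent.helper60.DA

open Polynomial Finset Pool.Agent.helper60.DK

theorem MB_alg {R : Type*} [CommRing R] (x A N N1 N2 M1 M2 h P : R) (hP : P = 2 * h + 1)
    (e1 : (1 + x) * M1 = A * (h * x * N + (1 + x) * N1))
    (e2 : (1 + x) ^ 2 * M2 = A * (h * x * (h * x * N + (1 + x) * N1)
      + (1 + x) * (h * x * N + h * x * N1 + x * N1 + (1 + x) * N2)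
      - x * (h * x * N + (1 + x) * N1))) :
    4 * (1 + x) ^ 2 * (1 + 4 * x) ^ 2 * (2 * (A * N * M2) - M1 ^ 2)
    + 8 * x * (1 + x) * (1 + 4 * x) * (5 + 8 * x) * (A * N * M1)
    + (28 * x + 195 * x ^ 2 + 432 * x ^ 3 + 256 * x ^ 4) * (A * N) ^ 2
    - 4 * P * (1 + x) * (1 + 4 * x)
      * ((1 + 4 * x) * (3 + 4 * x) * (A * N * M1) + 16 * x * (1 + 2 * x) * (A * N) ^ 2)
    + P ^ 2 * (1 + 4 * x) ^ 2 * (3 + 4 * x) ^ 2 * (A * N) ^ 2
    = A ^ 2 * (1 + x) * (4 * (1 + x) * (1 + 4 * x) ^ 2 * (2 * (N * N2) - N1 ^ 2)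
    + (12 * x * (1 + 4 * x) * (3 + 4 * x) - 12 * P * (1 + x) * (1 + 4 * x) ^ 2) * (N * N1)
    + (24 * x * (1 + 2 * x) * (1 + 3 * x) - 18 * P * x * (1 + 4 * x) * (3 + 4 * x)
        + 9 * P ^ 2 * (1 + x) * (1 + 4 * x) ^ 2) * N ^ 2) := by
  subst hP
  linear_combination (8 * (1 + 4 * x) ^ 2 * (A * N)) * e2
    + (-4 * (1 + 4 * x) ^ 2 * ((1 + x) * M1 + A * (h * x * N + (1 + x) * N1))
      + 8 * x * (1 + 4 * x) * (5 + 8 * x) * (A * N)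
      - 4 * (2 * h + 1) * (1 + 4 * x) ^ 2 * (3 + 4 * x) * (A * N)) * e1

theorem MB_Dx_mul {R : Type*} [CommRing R] (f g : R[X]) : Dx (f * g) = Dx f * g + f * Dx g := by
  unfold Dx
  rw [derivative_mul]
  ring

theorem MB_Dx_add {R : Type*} [CommRing R] (f g : R[X]) : Dx (f + g) = Dx f + Dx g := by
  unfold Dx
  rw [derivative_add]
  ring

theorem MB_Dx_pow {R : Type*} [CommRing R] (h : ℕ) :
    (1 + X) * Dx ((1 + X : R[X]) ^ h) = (h : R[X]) * X * (1 + X) ^ h := by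
  unfold Dx
  cases h with
  | zero => simp
  | succ h =>
    rw [derivative_pow]
    simp only [derivative_add, derivative_one, derivative_X, Nat.add_sub_cancel]
    rw [pow_succ]
    simp
    ring

theorem MB : MB_stmt := by
  intro h N
  have a1 := MB_Dx_pow (R := ℤ) h
  have hX : Dx (X : ℤ[X]) = X := by
    unfold Dx
    simp
  have h1X : Dx (1 + X : ℤ[X]) = X := by
    unfold Dx
    simp
  have hh0 : Dx ((h : ℤ[X])) = 0 := by
    unfold Dx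
    simp
  have e1 : (1 + X) * Dx ((1 + X : ℤ[X]) ^ h * N) =
      (1 + X) ^ h * ((h : ℤ[X]) * X * N + (1 + X) * Dx N) := by
    rw [MB_Dx_mul]
    linear_combination N * a1
  have e1' : X * Dx ((1 + X : ℤ[X]) ^ h * N) + (1 + X) * Dx (Dx ((1 + X : ℤ[X]) ^ h * N)) =
      Dx ((1 + X : ℤ[X]) ^ h) * ((h : ℤ[X]) * X * N + (1 + X) * Dx N)
        + (1 + X) ^ h * ((h : ℤ[X]) * X * N + (h : ℤ[X]) * X * Dx N + X * Dx N
          + (1 + X) * Dx (Dx N)) := by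
    have h2 := congrArg Dx e1
    rw [MB_Dx_mul, MB_Dx_mul ((1 + X : ℤ[X]) ^ h) ((h : ℤ[X]) * X * N + (1 + X) * Dx N),
      MB_Dx_add ((h : ℤ[X]) * X * N), MB_Dx_mul ((h : ℤ[X]) * X) N, MB_Dx_mul (h : ℤ[X]) X,
      MB_Dx_mul (1 + X) (Dx N), h1X, hX, hh0] at h2
    linear_combination h2
  have e2 : (1 + X) ^ 2 * Dx (Dx ((1 + X : ℤ[X]) ^ h * N)) =
      (1 + X) ^ h * ((h : ℤ[X]) * X * ((h : ℤ[X]) * X * N + (1 + X) * Dx N)
      + (1 + X) * ((h : ℤ[X]) * X * N + (h : ℤ[X]) * X * Dx N + X * Dx N + (1 + X) * Dx (Dx N))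
      - X * ((h : ℤ[X]) * X * N + (1 + X) * Dx N)) := by
    linear_combination (1 + X) * e1' - X * e1
      + ((h : ℤ[X]) * X * N + (1 + X) * Dx N) * a1
  have hP : (C (2 * (h : ℤ) + 1) : ℤ[X]) = 2 * (h : ℤ[X]) + 1 := by
    simp
  have key := MB_alg (X : ℤ[X]) ((1 + X) ^ h) N (Dx N) (Dx (Dx N)) (Dx ((1 + X : ℤ[X]) ^ h * N))
    (Dx (Dx ((1 + X : ℤ[X]) ^ h * N))) (h : ℤ[X]) (C (2 * (h : ℤ) + 1)) hP e1 e2
  unfold Jc Jr
  have hpw : (1 + X : ℤ[X]) ^ (2 * h + 1) = ((1 + X) ^ h) ^ 2 * (1 + X) := by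
    rw [pow_succ, ← pow_mul, mul_comm 2 h]
  rw [hpw]
  exact key

end Pool.Agent.helper60.DA
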