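import Pool.Agent.helper60.DA.SpecV

/-!
# Row dv:ST: the coefficients of `S_p` above `3h` are divisible by `p^2`
-/

set_option autoImplicit false

namespace Pool.Agent.helper60.DA

open Polynomial Finset Pool.Agent.helper60.DK

theorem ST_coeff (N : ℕ) (c : ℕ → ℤ) (i : ℕ) :
    (∑ j ∈ range N, C (c j) * X ^ j : ℤ[X]).coeff i = if i < N then c i else 0 := by
  rw [finsetSum_coeff]
  simp only [coeff_C_mul, coeff_X_pow]
  split_ifs with h
  · rw [sum_eq_single i]
    · simp
    · intro b _ hb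
      rw [if_neg (Ne.symm hb), mul_zero]
    · intro hh
      exact absurd (mem_range.mpr h) hh
  · apply sum_eq_zero
    intro b hb
    have := mem_range.mp hb
    rw [if_neg (by omega), mul_zero]

theorem ST_natDegree (N m : ℕ) (c : ℕ → ℤ) (h : N ≤ m + 1) :
    (∑ j ∈ range N, C (c j) * X ^ j : ℤ[X]).natDegree ≤ m := by
  apply natDegree_sum_le_of_forall_le
  intro j hj
  have := mem_range.mp hj
  exact (natDegree_C_mul_X_pow_le _ _).trans (by omega)

theorem ST_split {p : ℕ} [hp : Fact p.Prime] (k : ℕ) (hk : k < p) :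
    ∃ E F : ℤ[X], E.natDegree ≤ p - 1 - k ∧ F.natDegree ≤ k ∧ Dz k = E + C (p : ℤ) * F := by
  refine ⟨∑ j ∈ range (p - k), C (dc k j) * X ^ j,
    ∑ j ∈ range (k + 1), C (if p ≤ k + j then dc k j / p else 0) * X ^ j,
    ST_natDegree _ _ _ (by omega), ST_natDegree _ _ _ (by omega), ?_⟩
  ext i
  rw [coeff_add, coeff_C_mul, ST_coeff, ST_coeff, coeff_Dz']
  by_cases h1 : p ≤ k + i
  · rw [if_neg (by omega), if_pos h1, zero_add]
    have h2 : (p : ℤ) ∣ dc k i := by
      rw [← int_dvd_iff]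
      exact dc_zero_mod hk h1
    split_ifs with h3
    · rw [Int.mul_ediv_cancel' h2]
    · rw [dc_of_lt (by omega), mul_zero]
  · rw [if_pos (by omega), if_neg h1]
    split_ifs <;> simp

theorem ST_cube {p : ℕ} [hp : Fact p.Prime] (h5 : 5 ≤ p) (k : ℕ) (hk : k < p) (i : ℕ)
    (hi : 3 * hh p < i) : (p : ℤ) ^ 2 ∣ (Dz k ^ 3).coeff i := by
  have h2 := two_hh (p := p) h5
  rcases le_or_gt k (hh p) with h | h
  · have h1 : (Dz k).natDegree ≤ k := by
      rw [natDegree_le_iff_coeff_eq_zero]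
      intro j hj
      rw [coeff_Dz', dc_of_lt hj]
    have h3 : (Dz k ^ 3).natDegree ≤ 3 * k := natDegree_pow_le_of_le 3 h1
    rw [coeff_eq_zero_of_natDegree_lt (by omega)]
    exact dvd_zero _
  · obtain ⟨E, F, hE, hF, hD⟩ := ST_split (p := p) k hk
    have e : Dz k ^ 3 = (E ^ 3 + C (3 * (p : ℤ)) * (E ^ 2 * F)) +
        C ((p : ℤ) ^ 2) * (3 * (E * F ^ 2) + C (p : ℤ) * F ^ 3) := by
      rw [hD]
      simp only [C_mul, C_pow]
      have : (C (3 : ℤ) : ℤ[X]) = 3 := rfl
      rw [this]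
      ring
    have h3 : (E ^ 3).natDegree ≤ 3 * (p - 1 - k) := natDegree_pow_le_of_le 3 hE
    have h4 : (E ^ 2).natDegree ≤ 2 * (p - 1 - k) := natDegree_pow_le_of_le 2 hE
    have h5 : (E ^ 2 * F).natDegree ≤ 2 * (p - 1 - k) + k := natDegree_mul_le_of_le h4 hF
    rw [e, coeff_add, coeff_add, coeff_C_mul, coeff_C_mul,
      coeff_eq_zero_of_natDegree_lt (by omega : (E ^ 3).natDegree < i),
      coeff_eq_zero_of_natDegree_lt (by omega : (E ^ 2 * F).natDegree < i)]
    rw [mul_zero, add_zero, zero_add]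
    exact dvd_mul_right _ _

theorem ST : ST_stmt := by
  intro p hp h5
  have h1 : C ((p : ℤ) ^ 2) ∣ Sz p - St p := by
    rw [C_dvd_iff_dvd_coeff]
    intro i
    have h2 : (St p).coeff i = if i < 3 * hh p + 1 then (Sz p).coeff i else 0 :=
      ST_coeff _ (fun j => (Sz p).coeff j) i
    rw [coeff_sub, h2]
    split_ifs with h
    · rw [sub_self]
      exact dvd_zero _
    · rw [sub_zero]
      unfold Sz
      rw [finsetSum_coeff]
      apply dvd_sum
      intro k hk
      have h3 := ST_cube (p := p) h5 k (mem_range.mp hk) i (by omega)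
      rcases neg_one_pow_eq_or ℤ[X] k with h4 | h4
      · rw [h4, one_mul]
        exact h3
      · rw [h4, neg_one_mul, coeff_neg]
        exact (dvd_neg).mpr h3
  obtain ⟨Z, hZ⟩ := h1
  exact ⟨Z, by linear_combination hZ⟩

end Pool.Agent.helper60.DA
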